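import Mathlib
import Pool.Agent.H76.ZonoDefs
import Pool.Agent.H76.RDMax

set_option autoImplicit false

/-!
Among rhombic dodecahedra in `ℝ^d` (zonotopes with `d + 1` generators) of mean width `1`, the
`k`-th intrinsic volume, `1 < k ≤ d`, is maximal exactly for the regular rhombic dodecahedra.

Proof. With `a_i = ‖p_i‖`, `S = ∑ a_i` and `u_i = p_i / a_i`, Cauchy-Schwarz gives
`V_k² ≤ e_k(a) · ∑_I a_I |u_I|²`, and the last sum is the `k`-th elementary symmetric function of the
eigenvalues of `∑ a_i u_i u_iᵀ`, whose trace is `S`. Maclaurin's inequality, used for both factors,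
gives the bound; equality forces all `a_i` to be equal and `∑ u_i u_iᵀ` to be scalar, which for
`d + 1` vectors in `ℝ^d` means that `± u_i` are the vertices of a regular simplex.
-/

namespace Pool.Agent.Results.MP_c3e14a_gt.RegularMaximizers

open Pool.Agent.H76

theorem result (d k : ℕ) (hk : 1 < k) (hkd : k ≤ d) :
    -- the two functionals on zonotopes are given by the usual formulas, for any generators
    (∀ (n : ℕ) (p : Fin n → E d) (Z : Set (E d)), Generates p Z →
      intrinsicVolume k Z = ∑ I ∈ Finset.univ.powersetCard k, wedgeNorm p I ∧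
      meanWidth Z = 2 * κ (d - 1) / (d * κ d) * ∑ i, ‖p i‖) ∧
    -- maximal bodies exist
    (∃ Z ∈ ZonotopeClass d (d + 1), meanWidth Z = 1 ∧
      ∀ Z' ∈ ZonotopeClass d (d + 1), meanWidth Z' = 1 →
        intrinsicVolume k Z' ≤ intrinsicVolume k Z) ∧
    -- and they are exactly the regular rhombic dodecahedra
    (∀ Z ∈ ZonotopeClass d (d + 1), meanWidth Z = 1 →
      ((∀ Z' ∈ ZonotopeClass d (d + 1), meanWidth Z' = 1 →
        intrinsicVolume k Z' ≤ intrinsicVolume k Z) ↔ IsRegularRD Z)) := by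
  have hd : 0 < d := by omega
  have hd0 : (0 : ℝ) < d := by exact_mod_cast hd
  have hN0 : (0 : ℝ) < ((d + 1 : ℕ) : ℝ) := by positivity
  set cd : ℝ := 2 * κ (d - 1) / (d * κ d) with hcd
  have hcd0 : 0 < cd := by
    have := κ_pos (d - 1)
    have := κ_pos d
    positivity
  set S₀ : ℝ := 1 / cd with hS₀
  have hS₀0 : 0 < S₀ := by positivity
  have hwidth : ∀ (n : ℕ) (p : Fin n → E d) (Z : Set (E d)), Generates p Z →
      (meanWidth Z = 1 ↔ ∑ i, ‖p i‖ = S₀) := by
    intro n p Z hp
    rw [meanWidth_eq p Z hp, ← hcd, hS₀, eq_div_iff hcd0.ne', mul_comm]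
  -- the upper bound
  have hub : ∀ Z' ∈ ZonotopeClass d (d + 1), meanWidth Z' = 1 →
      intrinsicVolume k Z' ≤ bound d k S₀ := by
    rintro Z' ⟨p, _, hp⟩ hw
    have hS := (hwidth _ p Z' hp).mp hw
    rw [intrinsicVolume_eq k p Z' hp, ← hS]
    exact (V_bound k hk hkd p (hS ▸ hS₀0)).1
  -- regular ones attain it
  have hreg : ∀ Z' : Set (E d), IsRegularRD Z' → meanWidth Z' = 1 → intrinsicVolume k Z' = bound d k S₀ := by
    rintro Z' ⟨q, hq, hgen⟩ hw
    rw [intrinsicVolume_eq k q Z' hgen, V_regular k hk hkd q hq, (hwidth _ q Z' hgen).mp hw]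
  -- a regular one of mean width one
  obtain ⟨q, hqg⟩ := exists_regular d (S₀ ^ 2 / (d * ((d + 1 : ℕ) : ℝ))) (by positivity)
  have hqr : IsCentredRegularSimplex q := regular_of_gram q _ (by positivity) hqg
  have hqn : ∀ i, ‖q i‖ = S₀ / ((d + 1 : ℕ) : ℝ) := by
    intro i
    have h1 : ‖q i‖ ^ 2 = (S₀ / ((d + 1 : ℕ) : ℝ)) ^ 2 := by
      rw [← real_inner_self_eq_norm_sq, hqg]
      simp only [if_true]
      push_cast
      field_simp
      ring
    exact (pow_left_inj₀ (norm_nonneg _) (by positivity) two_ne_zero).mp h1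
  have hqgen : Generates q (zonotope q) := ⟨0, by simp⟩
  have hqZ : zonotope q ∈ ZonotopeClass d (d + 1) := ⟨q, span_regular hd q hqr, hqgen⟩
  have hqw : meanWidth (zonotope q) = 1 := by
    rw [hwidth _ q _ hqgen, Finset.sum_congr rfl fun i _ => hqn i]
    simp only [Finset.sum_const, Finset.card_univ, Fintype.card_fin, nsmul_eq_mul]
    field_simp
  have hqv := hreg _ ⟨q, hqr, hqgen⟩ hqw
  refine ⟨?_, ⟨zonotope q, hqZ, hqw, ?_⟩, ?_⟩
  · intro n p Z hp
    exact ⟨intrinsicVolume_eq k p Z hp, meanWidth_eq p Z hp⟩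
  · intro Z' hZ' hw'
    rw [hqv]
    exact hub Z' hZ' hw'
  · rintro Z hZ hw
    constructor
    · intro hmax
      obtain ⟨p, _, hp⟩ := hZ
      have hS := (hwidth _ p Z hp).mp hw
      have h1 := hmax _ hqZ hqw
      rw [hqv, intrinsicVolume_eq k p Z hp] at h1
      have hb := V_bound k hk hkd p (hS ▸ hS₀0)
      rw [hS] at hb
      have heq := le_antisymm hb.1 h1
      obtain ⟨hn, hT⟩ := hb.2 heq
      obtain ⟨ε, hε, hεr⟩ := regular_of_equality hd p S₀ hS₀0 hn hT
      exact ⟨_, hεr, generates_signs p Z hp ε hε⟩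
    · intro hr Z' hZ' hw'
      rw [hreg Z hr hw]
      exact hub Z' hZ' hw'

end Pool.Agent.Results.MP_c3e14a_gt.RegularMaximizers
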